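import Pool.Agent.Helper96.WT.Last
import Pool.Agent.Helper96.WT.Cc
import Pool.Agent.Helper96.WT.D

/-!
# Trees of arbitrarily large diameter with only rational Wiener roots

Outline.  Fix `g ≥ 2`, `h = 2 g - 2`, `a = 8 h`.

* Targets.  `x (n - 1) (1 + u x) (1 + x / a) ^ (h - 1) (1 + x / (a + 1))`, with `u` such that the value
  at `1` is `n (n - 1) / 2`.  For a tree `2 W(-1) + n` is the square of the difference of the two
  colour classes; for the target this is a quadratic in `n`, and a Pell equation gives arbitrarily
  large `n` for which it is a square and all coefficients are integers.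
* Approximate solution.  In a caterpillar with spine `0, …, h` and `m_i` leaves at the spine vertex
  `i`, most leaves at the end `0`, moving a leaf from `0` or `1` to `j` changes in the degrees
  `≥ 4` essentially only the coefficient of `x ^ (j + 2)`, by about `n`.  So a minimiser of the sum
  of the errors has all errors at most `n`.
* Exact solution.  At the middle vertex `g - 1` hang paths with `O(√n)` leaves.  Distributing the
  leaves of equal depth differently over the paths changes the Wiener polynomial by multiples of
  `x ^ 2 - x ^ (2 i)` and `x ^ 3 - x ^ (2 i + 1)`; by Lagrange's four square theorem and division with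
  remainder all the changes that are needed occur.  The coefficients of `x ^ 2` and `x ^ 3` follow
  from the values at `1` and `-1`.

The realisation by graphs is by helper74, the Pell part by helper22, the approximate solution by
helper83.
-/

set_option autoImplicit false

namespace Pool.Agent.Results.MP_96b1db_co.RationalTrees

open Polynomial

open Classical in
/-- The Wiener polynomial: the sum of `x ^ d(u, v)` over the unordered pairs of different vertices,
written as half the sum over the ordered pairs. -/
noncomputable def wienerPoly {V : Type*} [Fintype V] (G : SimpleGraph V) : ℚ[X] :=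
  C (1 / 2) * ∑ u : V, ∑ v : V, if u = v then 0 else X ^ G.dist u v

/-- For every even `D ≥ 4` and every `N` there is a finite tree with more than `N` vertices and of
diameter exactly `D` all of whose Wiener roots are rational. -/
theorem result (D : ℕ) (hD : 4 ≤ D) (hE : Even D) (N : ℕ) :
    ∃ (V : Type) (_ : Fintype V) (G : SimpleGraph V), G.IsTree ∧ N < Fintype.card V ∧
      (∀ u v, G.dist u v ≤ D) ∧ (∃ u v, G.dist u v = D) ∧ wienerPoly G ≠ 0 ∧
      ∀ z : ℂ, aeval z (wienerPoly G) = 0 → ∃ r : ℚ, z = (r : ℂ) := by
  obtain ⟨g, rfl⟩ := hE
  have h := Pool.Agent.Helper96.WT.main Pool.Agent.Helper96.WT.t_A Pool.Agent.Helper96.WT.t_C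
    Pool.Agent.Helper96.WT.t_D g (by omega) N
  rw [← two_mul]
  exact h

end Pool.Agent.Results.MP_96b1db_co.RationalTrees
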